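import Mathlib

open MeasureTheory ProbabilityTheory Filter Set
open scoped Topology ENNReal

namespace Pool.Agent.Results.MP_a33f4b_pr.MeanSplitRate

/-- The mean-split quantization `T(μ, n)`: `T(μ, 0)` is the point mass at the mean of `μ`, and
`T(μ, n + 1) = μ(Ω₋) T(μ₋, n) + μ(Ω₊) T(μ₊, n)`, where `Ω₋ = (-∞, mean)`, `Ω₊ = [mean, ∞)` and
`μ₋`, `μ₊` are the conditional measures of `μ` on `Ω₋`, `Ω₊`. -/
noncomputable def meanSplit : ℕ → Measure ℝ → Measure ℝ
  | 0, μ => Measure.dirac (∫ x, x ∂μ)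
  | n + 1, μ =>
      μ (Iio (∫ x, x ∂μ)) • meanSplit n (μ[|Iio (∫ x, x ∂μ)]) +
      μ (Ici (∫ x, x ∂μ)) • meanSplit n (μ[|Ici (∫ x, x ∂μ)])

/-- The Wasserstein-1 distance of two measures on the line: the infimum of the transport cost
`∫ |x - y| dπ(x, y)` over all couplings `π`. -/
noncomputable def W1 (μ ν : Measure ℝ) : ℝ≥0∞ :=
  ⨅ π : {π : Measure (ℝ × ℝ) // π.map Prod.fst = μ ∧ π.map Prod.snd = ν},
    ∫⁻ p, ENNReal.ofReal |p.1 - p.2| ∂π.1

/-! ### Basic facts on `W1` -/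

lemma W1_le_of_coupling {μ ν : Measure ℝ} (π : Measure (ℝ × ℝ)) (h1 : π.map Prod.fst = μ)
    (h2 : π.map Prod.snd = ν) : W1 μ ν ≤ ∫⁻ p, ENNReal.ofReal |p.1 - p.2| ∂π :=
  iInf_le (fun π : {π : Measure (ℝ × ℝ) // π.map Prod.fst = μ ∧ π.map Prod.snd = ν} =>
    ∫⁻ p, ENNReal.ofReal |p.1 - p.2| ∂π.1) ⟨π, h1, h2⟩

lemma W1_mix (p q : ℝ≥0∞) (hp : p ≠ ∞) (hq : q ≠ ∞) (hp0 : p ≠ 0) (hq0 : q ≠ 0)
    (μ₁ μ₂ ν₁ ν₂ : Measure ℝ) :
    W1 (p • μ₁ + q • μ₂) (p • ν₁ + q • ν₂) ≤ p * W1 μ₁ ν₁ + q * W1 μ₂ ν₂ := by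
  have key : ∀ π₁ π₂ : Measure (ℝ × ℝ), π₁.map Prod.fst = μ₁ → π₁.map Prod.snd = ν₁ →
      π₂.map Prod.fst = μ₂ → π₂.map Prod.snd = ν₂ →
      W1 (p • μ₁ + q • μ₂) (p • ν₁ + q • ν₂) ≤
        p * ∫⁻ x, ENNReal.ofReal |x.1 - x.2| ∂π₁ + q * ∫⁻ x, ENNReal.ofReal |x.1 - x.2| ∂π₂ := by
    intro π₁ π₂ h1 h2 h3 h4
    refine (W1_le_of_coupling (p • π₁ + q • π₂) ?_ ?_).trans ?_
    · rw [Measure.map_add _ _ measurable_fst, Measure.map_smul, Measure.map_smul, h1, h3]
    · rw [Measure.map_add _ _ measurable_snd, Measure.map_smul, Measure.map_smul, h2, h4]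
    · rw [lintegral_add_measure, lintegral_smul_measure, lintegral_smul_measure, smul_eq_mul,
        smul_eq_mul]
  unfold W1 at key ⊢
  rw [ENNReal.mul_iInf_of_ne hp0 hp, ENNReal.mul_iInf_of_ne hq0 hq]
  rw [ENNReal.iInf_add]
  refine le_iInf fun π₁ => ?_
  rw [ENNReal.add_iInf]
  refine le_iInf fun π₂ => ?_
  exact key π₁.1 π₂.1 π₁.2.1 π₁.2.2 π₂.2.1 π₂.2.2

lemma W1_dirac_le (m : ℝ) (μ : Measure ℝ) [IsProbabilityMeasure μ] :
    W1 (Measure.dirac m) μ ≤ ∫⁻ x, ENNReal.ofReal |m - x| ∂μ := by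
  refine (W1_le_of_coupling (μ.map (fun x => (m, x))) ?_ ?_).trans ?_
  · rw [Measure.map_map measurable_fst (by fun_prop)]
    have : (Prod.fst ∘ fun x : ℝ => (m, x)) = fun _ => m := rfl
    rw [this, Measure.map_const]
    simp
  · rw [Measure.map_map measurable_snd (by fun_prop)]
    have : (Prod.snd ∘ fun x : ℝ => (m, x)) = id := rfl
    rw [this, Measure.map_id]
  · rw [lintegral_map (by fun_prop) (by fun_prop)]

/-- Lower bound: if `μ` does not charge `(c, ∞)`, the transport cost to `ν` is at least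
`∫ (y - c)⁺ dν`. -/
lemma le_W1 (μ ν : Measure ℝ) (c : ℝ) (hμ : μ (Ioi c) = 0) :
    ∫⁻ y, ENNReal.ofReal (y - c) ∂ν ≤ W1 μ ν := by
  refine le_iInf fun π => ?_
  obtain ⟨π, h1, h2⟩ := π
  subst h2
  rw [lintegral_map (by fun_prop) measurable_snd]
  refine lintegral_mono_ae ?_
  have : ∀ᵐ p ∂π, p.1 ≤ c := by
    rw [ae_iff]
    have h3 : {p : ℝ × ℝ | ¬ p.1 ≤ c} = Prod.fst ⁻¹' (Ioi c) := by
      ext p; simp
    rw [h3, ← Measure.map_apply measurable_fst measurableSet_Ioi, h1, hμ]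
  filter_upwards [this] with p hp
  apply ENNReal.ofReal_le_ofReal
  rw [abs_sub_comm]
  exact (by linarith : p.2 - c ≤ p.2 - p.1).trans (le_abs_self _)

/-! ### Uniform measures -/

/-- The uniform probability measure on `[a, b)`. -/
noncomputable def unif (a b : ℝ) : Measure ℝ :=
  (ENNReal.ofReal (b - a))⁻¹ • volume.restrict (Ico a b)

lemma isProbabilityMeasure_unif {a b : ℝ} (h : a < b) : IsProbabilityMeasure (unif a b) := by
  constructor
  have : ENNReal.ofReal (b - a) ≠ 0 := by simp [h]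
  simp only [unif, Measure.smul_apply, Measure.restrict_apply MeasurableSet.univ, univ_inter,
    Real.volume_Ico, smul_eq_mul]
  exact ENNReal.inv_mul_cancel this ENNReal.ofReal_ne_top

lemma unif_compl (a b : ℝ) : unif a b (Ico a b)ᶜ = 0 := by
  simp [unif, Measure.restrict_apply measurableSet_Ico.compl]

lemma unif_null {a b : ℝ} {s : Set ℝ} (hs : Disjoint s (Ico a b)) : unif a b s = 0 :=
  measure_mono_null (fun _ hx hx' => (Set.disjoint_left.1 hs) hx hx') (unif_compl a b)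

lemma integral_unif {a b : ℝ} (h : a < b) (f : ℝ → ℝ) :
    ∫ x, f x ∂(unif a b) = (b - a)⁻¹ * ∫ x in a..b, f x := by
  rw [unif, integral_smul_measure, intervalIntegral.integral_of_le h.le,
    integral_Icc_eq_integral_Ioc.symm, integral_Icc_eq_integral_Ico, ENNReal.toReal_inv,
    ENNReal.toReal_ofReal (by linarith), smul_eq_mul]

lemma integral_id_unif {a b : ℝ} (h : a < b) : ∫ x, x ∂(unif a b) = (a + b) / 2 := by
  rw [integral_unif h, integral_id]
  have : b - a ≠ 0 := by linarith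
  field_simp
  ring

lemma integrable_unif {a b : ℝ} (h : a < b) {f : ℝ → ℝ} (hf : Continuous f) :
    Integrable f (unif a b) := by
  have h0 : ENNReal.ofReal (b - a) ≠ 0 := by simp [h]
  refine Integrable.smul_measure ?_ (ENNReal.inv_ne_top.2 h0)
  exact (hf.integrableOn_Icc (a := a) (b := b)).mono_set Ico_subset_Icc_self

lemma unif_ac (a b : ℝ) : unif a b ≪ volume :=
  (Measure.absolutelyContinuous_of_le Measure.restrict_le_self).smul_left _

/-! ### One step of the algorithm -/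

lemma meanSplit_succ_of_split (n : ℕ) (μ₁ μ₂ : Measure ℝ) [IsProbabilityMeasure μ₁]
    [IsProbabilityMeasure μ₂] (p q : ℝ≥0∞) (hp : p ≠ ∞) (hq : q ≠ ∞) (hp0 : p ≠ 0) (hq0 : q ≠ 0)
    (m : ℝ) (h1 : μ₁ (Ici m) = 0) (h2 : μ₂ (Iio m) = 0)
    (hm : ∫ x, x ∂(p • μ₁ + q • μ₂) = m) :
    meanSplit (n + 1) (p • μ₁ + q • μ₂) = p • meanSplit n μ₁ + q • meanSplit n μ₂ := by
  have h1' : μ₁ (Iio m) = 1 := by
    rw [← prob_compl_eq_zero_iff measurableSet_Iio, compl_Iio]; exact h1
  have h2' : μ₂ (Ici m) = 1 := by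
    rw [← prob_compl_eq_zero_iff measurableSet_Ici, compl_Ici]; exact h2
  have r1 : μ₁.restrict (Iio m) = μ₁ := by
    apply Measure.restrict_eq_self_of_ae_mem
    rw [ae_iff]
    have e : {a | a ∉ Iio m} = Ici m := by ext; simp
    rw [e]; exact h1
  have r2 : μ₂.restrict (Ici m) = μ₂ := by
    apply Measure.restrict_eq_self_of_ae_mem
    rw [ae_iff]
    have e : {a | a ∉ Ici m} = Iio m := by ext; simp
    rw [e]; exact h2
  have r1' : μ₁.restrict (Ici m) = 0 := Measure.restrict_eq_zero.2 h1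
  have r2' : μ₂.restrict (Iio m) = 0 := Measure.restrict_eq_zero.2 h2
  have e1 : (p • μ₁ + q • μ₂) (Iio m) = p := by simp [h1', h2]
  have e2 : (p • μ₁ + q • μ₂) (Ici m) = q := by simp [h1, h2']
  have c1 : (p • μ₁ + q • μ₂)[|Iio m] = μ₁ := by
    rw [ProbabilityTheory.cond, e1, Measure.restrict_add, Measure.restrict_smul,
      Measure.restrict_smul, r1, r2', smul_zero, add_zero, smul_smul,
      ENNReal.inv_mul_cancel hp0 hp, one_smul]
  have c2 : (p • μ₁ + q • μ₂)[|Ici m] = μ₂ := by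
    rw [ProbabilityTheory.cond, e2, Measure.restrict_add, Measure.restrict_smul,
      Measure.restrict_smul, r2, r1', smul_zero, zero_add, smul_smul,
      ENNReal.inv_mul_cancel hq0 hq, one_smul]
  rw [meanSplit, hm, c1, c2, e1, e2]

/-! ### Mean split of uniform measures -/

lemma unif_halves {a b : ℝ} (h : a < b) :
    unif a b = (2⁻¹ : ℝ≥0∞) • unif a ((a + b) / 2) + (2⁻¹ : ℝ≥0∞) • unif ((a + b) / 2) b := by
  have e1 : ENNReal.ofReal (b - a) = 2 * ENNReal.ofReal ((a + b) / 2 - a) := by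
    rw [← ENNReal.ofReal_ofNat 2, ← ENNReal.ofReal_mul (by norm_num)]
    congr 1; ring
  have e2 : ENNReal.ofReal (b - a) = 2 * ENNReal.ofReal (b - (a + b) / 2) := by
    rw [← ENNReal.ofReal_ofNat 2, ← ENNReal.ofReal_mul (by norm_num)]
    congr 1; ring
  have e1' : (2⁻¹ : ℝ≥0∞) * (ENNReal.ofReal ((a + b) / 2 - a))⁻¹ = (ENNReal.ofReal (b - a))⁻¹ := by
    rw [e1, ENNReal.mul_inv (by simp) (by simp)]
  have e2' : (2⁻¹ : ℝ≥0∞) * (ENNReal.ofReal (b - (a + b) / 2))⁻¹ = (ENNReal.ofReal (b - a))⁻¹ := by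
    rw [e2, ENNReal.mul_inv (by simp) (by simp)]
  unfold unif
  rw [smul_smul, smul_smul, e1', e2', ← smul_add, ← Measure.restrict_union _ measurableSet_Ico,
    Ico_union_Ico_eq_Ico (by linarith) (by linarith)]
  exact Ico_disjoint_Ico_same

lemma meanSplit_succ_unif (n : ℕ) {a b : ℝ} (h : a < b) :
    meanSplit (n + 1) (unif a b) = (2⁻¹ : ℝ≥0∞) • meanSplit n (unif a ((a + b) / 2)) +
      (2⁻¹ : ℝ≥0∞) • meanSplit n (unif ((a + b) / 2) b) := by
  have := isProbabilityMeasure_unif (show a < (a + b) / 2 by linarith)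
  have := isProbabilityMeasure_unif (show (a + b) / 2 < b by linarith)
  have hm := integral_id_unif h
  rw [unif_halves h] at hm ⊢
  refine meanSplit_succ_of_split n _ _ _ _ (by simp) (by simp) (by simp) (by simp)
    ((a + b) / 2) ?_ ?_ hm
  · apply unif_null
    rw [Set.disjoint_left]
    intro x hx hx'
    exact absurd hx'.2 (not_lt.2 hx)
  · apply unif_null
    rw [Set.disjoint_left]
    intro x hx hx'
    exact absurd hx'.1 (not_le.2 hx)

lemma meanSplit_unif_Ioi (n : ℕ) : ∀ {a b : ℝ} (_ : a < b), meanSplit n (unif a b) (Ioi b) = 0 := by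
  induction n with
  | zero =>
    intro a b h
    rw [meanSplit, integral_id_unif h, Measure.dirac_apply' _ measurableSet_Ioi]
    simp
    linarith
  | succ n ih =>
    intro a b h
    rw [meanSplit_succ_unif n h]
    have h1 := ih (show a < (a + b) / 2 by linarith)
    have h2 := ih (show (a + b) / 2 < b by linarith)
    have h3 : meanSplit n (unif a ((a + b) / 2)) (Ioi b) = 0 :=
      measure_mono_null (Ioi_subset_Ioi (by linarith)) h1
    simp [h2, h3]

lemma W1_unif_le (n : ℕ) : ∀ {a b : ℝ} (_ : a < b),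
    W1 (meanSplit n (unif a b)) (unif a b) ≤ ENNReal.ofReal ((b - a) / 2 ^ n) := by
  induction n with
  | zero =>
    intro a b h
    have := isProbabilityMeasure_unif h
    rw [meanSplit, integral_id_unif h]
    refine (W1_dirac_le _ _).trans ?_
    have : ∫⁻ x, ENNReal.ofReal |(a + b) / 2 - x| ∂(unif a b) ≤
        ∫⁻ x, ENNReal.ofReal ((b - a) / 2 ^ 0) ∂(unif a b) := by
      refine lintegral_mono_ae ?_
      have h0 : ∀ᵐ x ∂(unif a b), x ∈ Ico a b := by
        rw [ae_iff]; exact unif_compl a b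
      filter_upwards [h0] with x hx
      apply ENNReal.ofReal_le_ofReal
      rw [abs_le]
      constructor <;> simp <;> linarith [hx.1, hx.2]
    refine this.trans ?_
    simp
  | succ n ih =>
    intro a b h
    rw [meanSplit_succ_unif n h]
    conv_lhs => rw [unif_halves h]
    refine (W1_mix _ _ (by simp) (by simp) (by simp) (by simp) _ _ _ _).trans ?_
    have h1 := ih (show a < (a + b) / 2 by linarith)
    have h2 := ih (show (a + b) / 2 < b by linarith)
    refine (add_le_add (mul_le_mul_right h1 _) (mul_le_mul_right h2 _)).trans ?_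
    have e1 : (a + b) / 2 - a = (b - a) / 2 := by ring
    have e2 : b - (a + b) / 2 = (b - a) / 2 := by ring
    rw [e1, e2, ← add_mul, ENNReal.inv_two_add_inv_two, one_mul]
    apply ENNReal.ofReal_le_ofReal
    rw [pow_succ]
    apply le_of_eq
    field_simp

/-! ### The self-similar mixture -/

/-- The law of `(3/2)^(j+K) U` with `K` geometric, `P(K = k) = (5/8) (3/8)^k`, and `U` uniform on
`[10, 11)` independent of `K`. -/
noncomputable def M (j : ℕ) : Measure ℝ :=
  Measure.sum fun k : ℕ => ENNReal.ofReal ((5 / 8) * (3 / 8) ^ k) •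
    unif (10 * (3 / 2) ^ (j + k)) (11 * (3 / 2) ^ (j + k))

lemma cell_lt (i : ℕ) : (10 * (3 / 2) ^ i : ℝ) < 11 * (3 / 2) ^ i := by
  have : (0 : ℝ) < (3 / 2) ^ i := by positivity
  linarith

lemma M_succ (j : ℕ) : M j = ENNReal.ofReal (5 / 8) • unif (10 * (3 / 2) ^ j) (11 * (3 / 2) ^ j) +
    ENNReal.ofReal (3 / 8) • M (j + 1) := by
  ext s hs
  simp only [M, Measure.sum_apply _ hs, Measure.add_apply, Measure.smul_apply, smul_eq_mul]
  rw [tsum_eq_zero_add' ENNReal.summable, ← ENNReal.tsum_mul_left]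
  congr 1
  · simp
  · apply tsum_congr
    intro k
    rw [← mul_assoc, ← ENNReal.ofReal_mul (by norm_num),
      show (3 / 8 : ℝ) * (5 / 8 * (3 / 8) ^ k) = 5 / 8 * (3 / 8) ^ (k + 1) by ring,
      show j + (k + 1) = j + 1 + k by ring]

lemma tsum_weights : ∑' k : ℕ, ENNReal.ofReal ((5 / 8) * (3 / 8) ^ k) = 1 := by
  have hs : HasSum (fun k : ℕ => (5 / 8 : ℝ) * (3 / 8) ^ k) 1 := by
    have := (hasSum_geometric_of_lt_one (r := (3 / 8 : ℝ)) (by norm_num) (by norm_num)).mul_left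
      (5 / 8 : ℝ)
    have e : (5 / 8 : ℝ) * (1 - 3 / 8)⁻¹ = 1 := by norm_num
    rwa [e] at this
  rw [← ENNReal.ofReal_tsum_of_nonneg (fun k => by positivity) hs.summable, hs.tsum_eq]
  simp

instance isProbabilityMeasure_M (j : ℕ) : IsProbabilityMeasure (M j) := by
  constructor
  have h : ∀ k : ℕ, unif (10 * (3 / 2) ^ (j + k)) (11 * (3 / 2) ^ (j + k)) univ = 1 := fun k => by
    have := isProbabilityMeasure_unif (cell_lt (j + k))
    exact measure_univ
  simp only [M, Measure.sum_apply _ MeasurableSet.univ, Measure.smul_apply, smul_eq_mul, h, mul_one]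
  exact tsum_weights

lemma M_ac (j : ℕ) : M j ≪ volume :=
  Measure.absolutelyContinuous_sum_left fun _ => (unif_ac _ _).smul_left _

lemma M_Iio (j : ℕ) : M j (Iio (10 * (3 / 2) ^ j)) = 0 := by
  simp only [M, Measure.sum_apply _ measurableSet_Iio, Measure.smul_apply, smul_eq_mul,
    ENNReal.tsum_eq_zero]
  intro k
  rw [unif_null, mul_zero]
  rw [Set.disjoint_left]
  intro x hx hx'
  have h1 : x < 10 * (3 / 2) ^ j := hx
  have h2 := hx'.1
  have h3 : (10 : ℝ) * (3 / 2) ^ j ≤ 10 * (3 / 2) ^ (j + k) := by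
    have : (3 / 2 : ℝ) ^ j ≤ (3 / 2) ^ (j + k) := pow_le_pow_right₀ (by norm_num) (by omega)
    linarith
  linarith

lemma lintegral_M (j : ℕ) (f : ℝ → ℝ≥0∞) : ∫⁻ x, f x ∂(M j) = ∑' k : ℕ,
    ENNReal.ofReal ((5 / 8) * (3 / 8) ^ k) *
      ∫⁻ x, f x ∂(unif (10 * (3 / 2) ^ (j + k)) (11 * (3 / 2) ^ (j + k))) := by
  rw [M, lintegral_sum_measure]
  simp only [lintegral_smul_measure, smul_eq_mul]

/-- Integrability of powers `x` and `x ^ 2`. -/
lemma integrable_pow_M (j p : ℕ) (hp : (3 / 8 : ℝ) * (3 / 2) ^ p < 1) :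
    Integrable (fun x => x ^ p) (M j) := by
  refine ⟨(by fun_prop : Measurable fun x : ℝ => x ^ p).aestronglyMeasurable, ?_⟩
  rw [HasFiniteIntegral, lintegral_M]
  have hb : ∀ k : ℕ, ∫⁻ x, ‖x ^ p‖ₑ ∂(unif (10 * (3 / 2) ^ (j + k)) (11 * (3 / 2) ^ (j + k))) ≤
      ENNReal.ofReal ((11 * (3 / 2) ^ (j + k)) ^ p) := by
    intro k
    have := isProbabilityMeasure_unif (cell_lt (j + k))
    have h0 : ∀ᵐ x ∂(unif (10 * (3 / 2) ^ (j + k)) (11 * (3 / 2) ^ (j + k))),
        x ∈ Ico (10 * (3 / 2) ^ (j + k) : ℝ) (11 * (3 / 2) ^ (j + k)) := by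
      rw [ae_iff]; exact unif_compl _ _
    calc ∫⁻ x, ‖x ^ p‖ₑ ∂(unif (10 * (3 / 2) ^ (j + k)) (11 * (3 / 2) ^ (j + k)))
        ≤ ∫⁻ _, ENNReal.ofReal ((11 * (3 / 2) ^ (j + k)) ^ p)
            ∂(unif (10 * (3 / 2) ^ (j + k)) (11 * (3 / 2) ^ (j + k))) := by
          refine lintegral_mono_ae ?_
          filter_upwards [h0] with x hx
          have h1 : (0 : ℝ) ≤ x := le_trans (by positivity) hx.1
          rw [Real.enorm_eq_ofReal (by positivity)]
          exact ENNReal.ofReal_le_ofReal (pow_le_pow_left₀ h1 hx.2.le p)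
      _ = _ := by simp
  refine (ENNReal.tsum_le_tsum fun k => mul_le_mul_right (hb k) _).trans_lt ?_
  have he : ∀ k : ℕ, ENNReal.ofReal ((5 / 8) * (3 / 8) ^ k) *
      ENNReal.ofReal ((11 * (3 / 2) ^ (j + k)) ^ p) =
      ENNReal.ofReal ((5 / 8) * (11 * (3 / 2) ^ j) ^ p * ((3 / 8) * (3 / 2) ^ p) ^ k) := by
    intro k
    rw [← ENNReal.ofReal_mul (by positivity)]
    congr 1
    rw [pow_add, mul_pow (3 / 8 : ℝ), ← pow_mul, mul_comm p k, pow_mul]
    ring
  simp_rw [he]
  have hs : Summable fun k : ℕ => (5 / 8 : ℝ) * (11 * (3 / 2) ^ j) ^ p * ((3 / 8) * (3 / 2) ^ p) ^ k :=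
    (summable_geometric_of_lt_one (by positivity) hp).mul_left _
  rw [← ENNReal.ofReal_tsum_of_nonneg (fun k => by positivity) hs]
  exact ENNReal.ofReal_lt_top

lemma integral_id_M (j : ℕ) : ∫ x, x ∂(M j) = 15 * (3 / 2) ^ j := by
  have hi : Integrable (fun x : ℝ => x) (M j) := by
    have := integrable_pow_M j 1 (by norm_num)
    simpa using this
  unfold M at hi ⊢
  have h1 := hasSum_integral_measure hi
  have h2 : ∀ k : ℕ, ∫ x, x ∂(ENNReal.ofReal ((5 / 8) * (3 / 8) ^ k) •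
      unif (10 * (3 / 2) ^ (j + k)) (11 * (3 / 2) ^ (j + k))) =
      (105 / 16) * (3 / 2) ^ j * (9 / 16) ^ k := by
    intro k
    rw [integral_smul_measure, integral_id_unif (cell_lt _), smul_eq_mul,
      ENNReal.toReal_ofReal (by positivity), show (9 / 16 : ℝ) = (3 / 8) * (3 / 2) by norm_num,
      mul_pow, pow_add]
    ring
  simp_rw [h2] at h1
  have h3 : HasSum (fun k : ℕ => (105 / 16) * (3 / 2 : ℝ) ^ j * (9 / 16) ^ k)
      (15 * (3 / 2) ^ j) := by
    have := (hasSum_geometric_of_lt_one (r := (9 / 16 : ℝ)) (by norm_num) (by norm_num)).mul_left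
      ((105 / 16) * (3 / 2 : ℝ) ^ j)
    have e : (105 / 16 : ℝ) * (3 / 2) ^ j * (1 - 9 / 16)⁻¹ = 15 * (3 / 2) ^ j := by
      norm_num; ring
    rwa [e] at this
  exact h1.unique h3

lemma meanSplit_succ_M (n j : ℕ) : meanSplit (n + 1) (M j) =
    ENNReal.ofReal (5 / 8) • meanSplit n (unif (10 * (3 / 2) ^ j) (11 * (3 / 2) ^ j)) +
      ENNReal.ofReal (3 / 8) • meanSplit n (M (j + 1)) := by
  have := isProbabilityMeasure_unif (cell_lt j)
  have hm := integral_id_M j
  rw [M_succ] at hm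
  rw [M_succ j]
  have hpos : (0 : ℝ) < (3 / 2) ^ j := by positivity
  refine meanSplit_succ_of_split n _ _ _ _ (by simp) (by simp) (by simp) (by simp)
    (15 * (3 / 2) ^ j) ?_ ?_ hm
  · apply unif_null
    rw [Set.disjoint_left]
    intro x hx hx'
    have h1 : 15 * (3 / 2) ^ j ≤ x := hx
    have h2 := hx'.2
    linarith
  · have := M_Iio (j + 1)
    rwa [show (10 : ℝ) * (3 / 2) ^ (j + 1) = 15 * (3 / 2) ^ j by ring] at this

/-- `T(M j, n)` does not charge the half-line beyond the mean of the last right cell. -/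
lemma meanSplit_M_Ioi (n : ℕ) : ∀ j : ℕ, meanSplit n (M j) (Ioi (15 * (3 / 2) ^ (j + n))) = 0 := by
  induction n with
  | zero =>
    intro j
    rw [meanSplit, integral_id_M, Measure.dirac_apply' _ measurableSet_Ioi]
    simp
  | succ n ih =>
    intro j
    rw [meanSplit_succ_M]
    have h1 := ih (j + 1)
    rw [show j + 1 + n = j + (n + 1) by ring] at h1
    have h2 : meanSplit n (unif (10 * (3 / 2) ^ j) (11 * (3 / 2) ^ j))
        (Ioi (15 * (3 / 2) ^ (j + (n + 1)))) = 0 := by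
      refine measure_mono_null (Ioi_subset_Ioi ?_) (meanSplit_unif_Ioi n (cell_lt j))
      have h3 : (3 / 2 : ℝ) ^ j ≤ (3 / 2) ^ (j + (n + 1)) :=
        pow_le_pow_right₀ (by norm_num) (by omega)
      have h4 : (0 : ℝ) < (3 / 2) ^ j := by positivity
      linarith
    simp [h1, h2]

/-! ### The two bounds -/

lemma W1_M_zero (j : ℕ) : W1 (meanSplit 0 (M j)) (M j) ≤ ENNReal.ofReal (30 * (3 / 2) ^ j) := by
  rw [meanSplit, integral_id_M]
  refine (W1_dirac_le _ _).trans ?_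
  have hi : Integrable (fun x : ℝ => x) (M j) := by
    have := integrable_pow_M j 1 (by norm_num)
    simpa using this
  have h0 : ∀ᵐ x ∂(M j), 0 ≤ x := by
    have h1 := M_Iio j
    rw [ae_iff]
    refine measure_mono_null ?_ h1
    intro x hx
    have hx' : ¬ 0 ≤ x := hx
    rw [not_le] at hx'
    have : (0 : ℝ) < 10 * (3 / 2) ^ j := by positivity
    exact hx'.trans this
  calc ∫⁻ x, ENNReal.ofReal |15 * (3 / 2) ^ j - x| ∂(M j)
      ≤ ∫⁻ x, ENNReal.ofReal (15 * (3 / 2) ^ j + x) ∂(M j) := by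
        refine lintegral_mono_ae ?_
        filter_upwards [h0] with x hx
        apply ENNReal.ofReal_le_ofReal
        have : (0 : ℝ) < 15 * (3 / 2) ^ j := by positivity
        rw [abs_le]
        constructor <;> linarith
    _ = ENNReal.ofReal (∫ x, (15 * (3 / 2) ^ j + x) ∂(M j)) := by
        refine (ofReal_integral_eq_lintegral_ofReal (f := fun x : ℝ => 15 * (3 / 2) ^ j + x)
          ((integrable_const _).add hi) ?_).symm
        filter_upwards [h0] with x hx
        show (0 : ℝ) ≤ 15 * (3 / 2) ^ j + x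
        positivity
    _ = ENNReal.ofReal (30 * (3 / 2) ^ j) := by
        have e : ∫ x, (15 * (3 / 2) ^ j + x) ∂(M j) = 30 * (3 / 2) ^ j := by
          rw [integral_add (integrable_const _) hi, integral_id_M, integral_const]
          simp
          ring
        rw [e]

lemma W1_M_le (n : ℕ) : ∀ j : ℕ, W1 (meanSplit n (M j)) (M j) ≤
    ENNReal.ofReal ((3 / 2) ^ j * (40 * (9 / 16) ^ n - 10 * (1 / 2) ^ n)) := by
  induction n with
  | zero =>
    intro j
    refine (W1_M_zero j).trans (ENNReal.ofReal_le_ofReal ?_)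
    have : (0 : ℝ) < (3 / 2) ^ j := by positivity
    simp
    linarith
  | succ n ih =>
    intro j
    rw [meanSplit_succ_M]
    conv_lhs => rw [M_succ j]
    refine (W1_mix _ _ (by simp) (by simp) (by simp) (by simp) _ _ _ _).trans ?_
    have h1 := W1_unif_le n (cell_lt j)
    have h2 := ih (j + 1)
    have hpos : (0 : ℝ) < (3 / 2) ^ j := by positivity
    have hn : ((1 / 2 : ℝ)) ^ n ≤ (9 / 16) ^ n := pow_le_pow_left₀ (by norm_num) (by norm_num) n
    have hn0 : (0 : ℝ) < (1 / 2) ^ n := by positivity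
    refine (add_le_add (mul_le_mul_right h1 _) (mul_le_mul_right h2 _)).trans ?_
    have e : (11 * (3 / 2 : ℝ) ^ j - 10 * (3 / 2) ^ j) / 2 ^ n = (3 / 2) ^ j * (1 / 2) ^ n := by
      rw [one_div, inv_pow]; ring
    rw [e, ← ENNReal.ofReal_mul (by norm_num), ← ENNReal.ofReal_mul (by norm_num),
      ← ENNReal.ofReal_add (by positivity)]
    · apply ENNReal.ofReal_le_ofReal
      rw [pow_succ, pow_succ, pow_succ]
      have hx : (0 : ℝ) ≤ (3 / 2) ^ j * (1 / 2) ^ n := by positivity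
      nlinarith [hx]
    · have : (0 : ℝ) < (3 / 2) ^ (j + 1) := by positivity
      have h3 : (0 : ℝ) ≤ 40 * (9 / 16) ^ n - 10 * (1 / 2) ^ n := by linarith
      positivity

lemma M_ge (n : ℕ) : ENNReal.ofReal ((3 / 8) ^ n) • M n ≤ M 0 := by
  induction n with
  | zero => simp
  | succ n ih =>
    refine le_trans ?_ ih
    calc ENNReal.ofReal ((3 / 8) ^ (n + 1)) • M (n + 1)
        = ENNReal.ofReal ((3 / 8) ^ n) • (ENNReal.ofReal (3 / 8) • M (n + 1)) := by
          rw [smul_smul, ← ENNReal.ofReal_mul (by positivity), pow_succ]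
      _ ≤ ENNReal.ofReal ((3 / 8) ^ n) • M n := by
          conv_rhs => rw [M_succ n]
          rw [smul_add]
          exact Measure.le_add_left le_rfl

lemma le_W1_M (n : ℕ) :
    ENNReal.ofReal ((135 / 1024) * (9 / 16) ^ n) ≤ W1 (meanSplit n (M 0)) (M 0) := by
  have h0 := meanSplit_M_Ioi n 0
  rw [zero_add] at h0
  refine le_trans ?_ (le_W1 _ _ _ h0)
  refine le_trans ?_ (lintegral_mono' (M_ge (n + 2)) le_rfl)
  rw [lintegral_smul_measure]
  have hpos : (0 : ℝ) < (3 / 2) ^ n := by positivity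
  have h1 : ENNReal.ofReal ((15 / 2) * (3 / 2) ^ n) ≤
      ∫⁻ y, ENNReal.ofReal (y - 15 * (3 / 2) ^ n) ∂(M (n + 2)) := by
    have h2 : ∀ᵐ y ∂(M (n + 2)), (15 / 2) * (3 / 2 : ℝ) ^ n ≤ y - 15 * (3 / 2) ^ n := by
      have h3 := M_Iio (n + 2)
      rw [ae_iff]
      refine measure_mono_null ?_ h3
      intro x hx
      have hx' : ¬ ((15 / 2) * (3 / 2 : ℝ) ^ n ≤ x - 15 * (3 / 2) ^ n) := hx
      rw [not_le] at hx'
      have h4 : (10 : ℝ) * (3 / 2) ^ (n + 2) = (45 / 2) * (3 / 2) ^ n := by ring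
      show x < _
      rw [h4]
      linarith
    calc ENNReal.ofReal ((15 / 2) * (3 / 2) ^ n)
        = ∫⁻ _, ENNReal.ofReal ((15 / 2) * (3 / 2) ^ n) ∂(M (n + 2)) := by simp
      _ ≤ _ := by
        refine lintegral_mono_ae ?_
        filter_upwards [h2] with y hy
        exact ENNReal.ofReal_le_ofReal hy
  refine le_trans ?_ (mul_le_mul_right h1 _)
  rw [← ENNReal.ofReal_mul (by positivity)]
  apply ENNReal.ofReal_le_ofReal
  rw [show (9 / 16 : ℝ) = (3 / 8) * (3 / 2) by norm_num, mul_pow, pow_add]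
  have : (0 : ℝ) ≤ (3 / 8) ^ n * (3 / 2) ^ n := by positivity
  nlinarith [this]

/-- **Disproof of the conjectured rate.** There is an absolutely continuous probability measure
`μ` on the line with finite second moment for which all `W₁(μ⁽ⁿ⁾, μ)` are finite and
`(1/n) log W₁(μ⁽ⁿ⁾, μ) → log (9/16)`; so the limsup is `log (9/16)`, which is larger than
`-log 2`. -/
theorem result : ∃ μ : Measure ℝ, IsProbabilityMeasure μ ∧ μ ≪ volume ∧
    Integrable (fun x => x ^ 2) μ ∧
    (∀ n : ℕ, W1 (meanSplit n μ) μ ≠ ∞) ∧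
    Tendsto (fun n : ℕ => (1 / (n : ℝ)) * Real.log (W1 (meanSplit n μ) μ).toReal) atTop
      (𝓝 (Real.log (9 / 16))) ∧
    limsup (fun n : ℕ => (1 / (n : ℝ)) * Real.log (W1 (meanSplit n μ) μ).toReal) atTop
      ≠ - Real.log 2 := by
  have hfin : ∀ n : ℕ, W1 (meanSplit n (M 0)) (M 0) ≠ ∞ := fun n =>
    ne_top_of_le_ne_top ENNReal.ofReal_ne_top (W1_M_le n 0)
  have hup : ∀ n : ℕ, (W1 (meanSplit n (M 0)) (M 0)).toReal ≤ 40 * (9 / 16) ^ n := by
    intro n
    refine ENNReal.toReal_le_of_le_ofReal (by positivity) ((W1_M_le n 0).trans ?_)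
    apply ENNReal.ofReal_le_ofReal
    have : (0 : ℝ) < (1 / 2) ^ n := by positivity
    simp only [pow_zero, one_mul]
    linarith
  have hlo : ∀ n : ℕ, (135 / 1024) * (9 / 16) ^ n ≤ (W1 (meanSplit n (M 0)) (M 0)).toReal := by
    intro n
    have := ENNReal.toReal_mono (hfin n) (le_W1_M n)
    rwa [ENNReal.toReal_ofReal (by positivity)] at this
  have hlim : Tendsto (fun n : ℕ => (1 / (n : ℝ)) *
      Real.log (W1 (meanSplit n (M 0)) (M 0)).toReal) atTop (𝓝 (Real.log (9 / 16))) := by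
    have hl : ∀ c : ℝ, Tendsto (fun n : ℕ => (1 / (n : ℝ)) * c + Real.log (9 / 16)) atTop
        (𝓝 (Real.log (9 / 16))) := by
      intro c
      have := (tendsto_one_div_atTop_nhds_zero_nat (𝕜 := ℝ)).mul_const c
      simpa using this.add_const (Real.log (9 / 16))
    refine tendsto_of_tendsto_of_tendsto_of_le_of_le' (hl (Real.log (135 / 1024)))
      (hl (Real.log 40)) ?_ ?_
    · filter_upwards [eventually_gt_atTop 0] with n hn
      have hn' : (0 : ℝ) < n := by exact_mod_cast hn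
      have h1 : Real.log ((135 / 1024) * (9 / 16) ^ n) ≤
          Real.log (W1 (meanSplit n (M 0)) (M 0)).toReal :=
        Real.log_le_log (by positivity) (hlo n)
      rw [Real.log_mul (by norm_num) (by positivity), Real.log_pow] at h1
      have h2 := mul_le_mul_of_nonneg_left h1 (show (0 : ℝ) ≤ 1 / n by positivity)
      have h3 : 1 / (n : ℝ) * (Real.log (135 / 1024) + n * Real.log (9 / 16)) =
          1 / (n : ℝ) * Real.log (135 / 1024) + Real.log (9 / 16) := by
        field_simp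
      linarith
    · filter_upwards [eventually_gt_atTop 0] with n hn
      have hn' : (0 : ℝ) < n := by exact_mod_cast hn
      have h0 : 0 < (W1 (meanSplit n (M 0)) (M 0)).toReal := lt_of_lt_of_le (by positivity) (hlo n)
      have h1 : Real.log (W1 (meanSplit n (M 0)) (M 0)).toReal ≤
          Real.log (40 * (9 / 16) ^ n) := Real.log_le_log h0 (hup n)
      rw [Real.log_mul (by norm_num) (by positivity), Real.log_pow] at h1
      have h2 := mul_le_mul_of_nonneg_left h1 (show (0 : ℝ) ≤ 1 / n by positivity)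
      have h3 : 1 / (n : ℝ) * (Real.log 40 + n * Real.log (9 / 16)) =
          1 / (n : ℝ) * Real.log 40 + Real.log (9 / 16) := by
        field_simp
      linarith
  refine ⟨M 0, inferInstance, M_ac 0, integrable_pow_M 0 2 (by norm_num), hfin, hlim, ?_⟩
  rw [hlim.limsup_eq, ← Real.log_inv]
  intro h
  have := Real.log_injOn_pos (by norm_num : (9 / 16 : ℝ) ∈ Ioi 0)
    (by norm_num : ((2 : ℝ)⁻¹) ∈ Ioi 0) h
  norm_num at this

end Pool.Agent.Results.MP_a33f4b_pr.MeanSplitRate
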